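import Pool.Agent.Lib.helper7.CXSharp
import Pool.Agent.Lib.lead.CXGraphRed

namespace Pool.Agent.H.MP_593132_lc
open Pool.Agent.Lib.CX

variable {A B C V : Type}

instance [Finite A] [Finite B] (r : A → A → Prop) (s : B → B → Prop) : Finite (r →r s) :=
  Finite.of_injective _ DFunLike.coe_injective

theorem hom_left (r : A → A → Prop) (r' : B → B → Prop) (s : C → C → Prop) :
    Nat.card (Sum.LiftRel r r' →r s) = Nat.card (r →r s) * Nat.card (r' →r s) := by
  rw [← Nat.card_prod]
  exact Nat.card_congr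
    { toFun := fun f => (⟨fun x => f (.inl x), fun h => f.map_rel (.inl h)⟩,
        ⟨fun x => f (.inr x), fun h => f.map_rel (.inr h)⟩)
      invFun := fun g => ⟨Sum.elim g.1 g.2, by
        rintro _ _ (h | h)
        exacts [g.1.map_rel h, g.2.map_rel h]⟩
      left_inv := fun f => RelHom.ext fun x => by cases x <;> rfl
      right_inv := fun g => rfl }

theorem hom_right [Finite A] [Finite B] [Finite C] (r : A → A → Prop) (s : B → B → Prop) (s' : C → C → Prop) (t : A)
    (h : ∀ x, ∃ y, (r x y ∨ r y x) ∧ r y t) :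
    Nat.card (r →r Sum.LiftRel s s') = Nat.card (r →r s) + Nat.card (r →r s') := by
  rw [← Nat.card_sum]
  refine (Nat.card_eq_of_bijective (Sum.elim (fun f => ⟨fun x => .inl (f x), fun h => .inl (f.map_rel h)⟩)
    (fun f => ⟨fun x => .inr (f x), fun h => .inr (f.map_rel h)⟩)) ⟨?_, fun f => ?_⟩).symm
  · rintro (f | f) (g | g) e
    · exact congrArg _ (RelHom.ext fun x => Sum.inl_injective (DFunLike.congr_fun e x))
    · cases DFunLike.congr_fun e t
    · cases DFunLike.congr_fun e t
    · exact congrArg _ (RelHom.ext fun x => Sum.inr_injective (DFunLike.congr_fun e x))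
  have k : ∀ x, (f x).isLeft = (f t).isLeft := fun x => by
    obtain ⟨y, a, b⟩ := h x
    have c : ∀ {u v}, Sum.LiftRel s s' u v → u.isLeft = v.isLeft := by rintro _ _ (h | h) <;> rfl
    rw [← c (f.map_rel b)]
    exact a.elim (fun a => c (f.map_rel a)) fun a => (c (f.map_rel a)).symm
  cases e : (f t).isLeft
  · have : ∀ x, ∃ c, f x = .inr c := fun x => Sum.isRight_iff.1 (Sum.isLeft_eq_false.1 ((k x).trans e))
    choose g hg using this
    exact ⟨.inr ⟨g, fun h => by simpa [hg] using f.map_rel h⟩, RelHom.ext fun x => (hg x).symm⟩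
  · have : ∀ x, ∃ c, f x = .inl c := fun x => Sum.isLeft_iff.1 ((k x).trans e)
    choose g hg using this
    exact ⟨.inl ⟨g, fun h => by simpa [hg] using f.map_rel h⟩, RelHom.ext fun x => (hg x).symm⟩

abbrev L2 : Fin 2 → Fin 2 → Prop := (· ≤ ·)

theorem hom_two (s : B → B → Prop) (h : ∀ x, s x x) : Nat.card (L2 →r s) = Nat.card {p : B × B // s p.1 p.2} :=
  Nat.card_congr
    { toFun := fun f => ⟨(f 0, f 1), f.map_rel (by decide)⟩
      invFun := fun p => ⟨![p.1.1, p.1.2], fun {a b} e => by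
        fin_cases a <;> fin_cases b
        exacts [h _, p.2, absurd e (by decide), h _]⟩
      left_inv := fun f => RelHom.ext fun x => by fin_cases x <;> rfl
      right_inv := fun g => rfl }

abbrev ch (a : Gr) : Gr :=
  (() :: () :: a.1, a.2.filter (fun e => decide (e.1 < a.n ∧ e.2 < a.n)) ++ [(a.n, a.n), (a.n, a.n + 1), (a.n + 1, a.n + 1)])

def chIso (a : Gr) : Sum.LiftRel a.arc L2 ≃r (ch a).arc where
  toEquiv := finSumFinEquiv
  map_rel_iff' := by
    rintro (u | u) (v | v)
    · have := u.2; have := v.2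
      simp [Gr.arc, Gr.n] at *; omega
    · have := u.2
      simp [Gr.arc, Gr.n] at *; omega
    · have := v.2
      simp [Gr.arc, Gr.n] at *; omega
    · fin_cases u <;> fin_cases v <;> simp [Gr.arc, Gr.n]

theorem ch_po (a : Gr) (h : IsPartialOrder _ a.arc) : IsPartialOrder _ (ch a).arc := by
  have : IsPartialOrder _ (Sum.LiftRel a.arc L2) :=
    { refl := by rintro (u | u); exacts [.inl (refl _), .inr le_rfl]
      trans := by
        rintro _ _ _ (h | h) (g | g)
        exacts [.inl (_root_.trans h g), .inr (h.trans g)]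
      antisymm := by
        rintro _ _ (h | h) (g | g)
        exacts [congrArg _ (antisymm h g), congrArg _ (h.antisymm g)] }
  exact (chIso a).symm.toRelEmbedding.isPartialOrder

def pairs (a : Gr) : ℕ := ((List.range a.n ×ˢ List.range a.n).filter fun e => decide (e ∈ a.2)).length

theorem pairs_eq (a : Gr) : Nat.card {p : Fin a.n × Fin a.n // a.arc p.1 p.2} = pairs a := by
  rw [pairs, ← List.toFinset_card_of_nodup ((List.nodup_range.product List.nodup_range).filter _),
    ← Nat.card_eq_finsetCard]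
  refine Nat.card_eq_of_bijective (fun p => ⟨(p.1.1, p.1.2), by simpa [Gr.arc] using p.2⟩) ⟨fun p q e => ?_, ?_⟩
  · simpa [Subtype.ext_iff, Prod.ext_iff, Fin.ext_iff] using e
  · rintro ⟨⟨u, v⟩, h⟩
    simp at h
    exact ⟨⟨(⟨u, h.1.1⟩, ⟨v, h.1.2⟩), h.2⟩, rfl⟩

theorem ups_eq (a : Gr) (h : IsPartialOrder _ a.arc) (t : Fin a.n) (ht : ∀ x, ∃ y, (a.arc x y ∨ a.arc y x) ∧ a.arc y t) :
    Nat.card (a.arc →r L2) =
      Nat.card ((ch a).arc →r (ch a).arc) / pairs (ch a) - Nat.card (a.arc →r a.arc) := by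
  have := ch_po a h
  rw [← pairs_eq, ← hom_two _ refl, ← Nat.card_congr ((chIso a).relHomCongr (RelIso.refl _)), hom_left,
    ← Nat.card_congr ((RelIso.refl _).relHomCongr (chIso a)), hom_right _ _ _ t ht, Nat.mul_div_cancel,
    Nat.add_sub_cancel_left]
  have : Nonempty (L2 →r (ch a).arc) := ⟨⟨fun _ => ⟨0, by simp [Gr.n]⟩, fun _ => refl _⟩⟩
  exact Nat.card_pos

theorem end_sharp : InSharpP fun a : Gr => Nat.card (a.arc →r a.arc) := by
  refine InSharpP.of_cert (fun a (c : List ℕ) => c.length = a.n ∧ (∀ x ∈ c, x < a.n) ∧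
    ∀ e ∈ a.2, e.1 < a.n → e.2 < a.n → (c.getD e.1 0, c.getD e.2 0) ∈ a.2) (fun a => a.n * (3 * a.n + 3) + 2)
    (by fun_prop) (by fun_prop) (fun a c h => ?_) fun a => ?_
  · refine (size_list_le (B := 3 * a.n + 2) fun x hx => ?_).trans (by rw [h.1])
    have := size_nat_le x
    have := h.2.1 x hx
    omega
  · refine Nat.card_eq_of_bijective (fun f => ⟨List.ofFn fun i => (f i).1, by simp, by simp, fun (i, j) h hi hj => ?_⟩)
      ⟨fun f g e => RelHom.ext fun x => Fin.ext ?_, ?_⟩
    · simpa [List.getD_eq_getElem?_getD, hi, hj, Gr.arc] using f.map_rel (a := ⟨i, hi⟩) (b := ⟨j, hj⟩) h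
    · exact congrFun (List.ofFn_injective (Subtype.ext_iff.1 e)) x
    · rintro ⟨c, h1, h2, h3⟩
      refine ⟨⟨fun i => ⟨c.getD i 0, h2 _ ?_⟩, fun {u v} h => h3 _ h u.2 v.2⟩, Subtype.ext ?_⟩
      · rw [List.getD_eq_getElem _ _ (by rw [h1]; exact i.2)]; exact List.getElem_mem _
      · exact List.ext_getElem (by simp [h1]) fun i a b => by simp [b]

theorem fib {N : Type} [DecidableEq N] (L E : Finset N) (hd : Disjoint L E) (I O : N → Finset N → Prop)
    [∀ e, DecidablePred (I e)] [∀ e, DecidablePred (O e)] (hio : ∀ e ∈ E, ∀ σ, ¬(I e σ ∧ O e σ)) :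
    ((L ∪ E).powerset.filter fun S => ∀ e ∈ E, (I e (S ∩ L) → e ∈ S) ∧ (O e (S ∩ L) → e ∉ S)).card =
      ∑ σ ∈ L.powerset, 2 ^ (E.filter fun e => ¬I e σ ∧ ¬O e σ).card := by
  rw [Finset.card_eq_sum_card_fiberwise (f := (· ∩ L)) (t := L.powerset) fun S _ => by simp]
  refine Finset.sum_congr rfl fun σ hσ => ?_
  rw [← Finset.card_powerset]
  rw [Finset.mem_powerset] at hσ
  rw [Finset.disjoint_left] at hd
  have key : ∀ T ⊆ E.filter fun e => ¬I e σ ∧ ¬O e σ, (σ ∪ E.filter (I · σ) ∪ T) ∩ L = σ := fun T hT => by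
    ext x
    have := @hT x
    have := @hd x
    have := @hσ x
    simp only [Finset.mem_filter, Finset.mem_union, Finset.mem_inter] at *
    grind
  refine Finset.card_nbij' (fun S => S ∩ E.filter fun e => ¬I e σ ∧ ¬O e σ) (fun T => σ ∪ E.filter (I · σ) ∪ T)
    (fun S _ => by simp) (fun T hT => ?_) (fun S hS => ?_) fun T hT => ?_
  · have hT := Finset.mem_powerset.1 (Finset.mem_coe.1 hT)
    simp only [Finset.coe_filter, Finset.mem_filter, Finset.mem_powerset, Set.mem_ofPred_eq, key T hT, and_true]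
    refine ⟨fun x => ?_, fun x hx => ?_⟩
    all_goals
      have := @hT x
      have := @hd x
      have := @hσ x
      have := hio x
      simp only [Finset.mem_filter, Finset.mem_union] at *
      grind
  · simp only [Finset.coe_filter, Finset.mem_filter, Finset.mem_powerset, Set.mem_ofPred_eq] at hS
    obtain ⟨⟨a, b⟩, c⟩ := hS
    rw [c] at b
    ext x
    have := @a x
    have := b x
    have := Finset.ext_iff.1 c x
    simp only [Finset.mem_filter, Finset.mem_union, Finset.mem_inter] at *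
    grind
  · have hT := Finset.mem_powerset.1 (Finset.mem_coe.1 hT)
    ext x
    have := @hT x
    have := @hd x
    have := @hσ x
    simp only [Finset.mem_filter, Finset.mem_union, Finset.mem_inter] at *
    grind

theorem ups_mk [DecidableEq V] (vs : List V) (es : List (V × V)) : Nat.card ((mkGr vs es).arc →r L2) =
    (vs.toFinset.powerset.filter fun S => ∀ x ∈ vs, ∀ y ∈ vs, (x, y) ∈ es → x ∈ S → y ∈ S).card := by
  rw [← Nat.card_eq_finsetCard]
  let e := mkGrEquiv vs es
  have m : ∀ (f : (mkGr vs es).arc →r L2) i, (e i).1 ∈ (Finset.univ.filter fun i => f i = 1).image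
      (fun i => (e i).1) ↔ f i = 1 := fun f i => by simp [Subtype.val_inj]
  refine Nat.card_eq_of_bijective (fun f => ⟨(Finset.univ.filter fun i => f i = 1).image fun i => (e i).1, ?_⟩)
    ⟨fun f g h => RelHom.ext fun i => ?_, ?_⟩
  · refine Finset.mem_filter.2 ⟨Finset.mem_powerset.2 (Finset.image_subset_iff.2 fun i _ =>
      List.mem_toFinset.2 (e i).2), fun x hx y hy h => ?_⟩
    obtain ⟨i, hi⟩ := e.surjective ⟨x, hx⟩
    obtain ⟨j, hj⟩ := e.surjective ⟨y, hy⟩
    obtain rfl : (e i).1 = x := congrArg _ hi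
    obtain rfl : (e j).1 = y := congrArg _ hj
    rw [m, m]
    have := f.map_rel ((mkGr_arc vs es i j).2 h)
    omega
  · have := (m f i).symm.trans ((Finset.ext_iff.1 (Subtype.ext_iff.1 h) (e i).1).trans (m g i))
    omega
  · rintro ⟨S, hS⟩
    obtain ⟨h1, h2⟩ := Finset.mem_filter.1 hS
    refine ⟨⟨fun i => if (e i).1 ∈ S then 1 else 0, fun {i j} h => ?_⟩, Subtype.ext (Finset.ext fun x => ?_)⟩
    · have := h2 _ (e i).2 _ (e j).2 ((mkGr_arc vs es i j).1 h)
      by_cases c : (e i).1 ∈ S <;> simp [c, this]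
    · simp only [Finset.mem_image, Finset.mem_filter, Finset.mem_univ, true_and]
      constructor
      · rintro ⟨i, hi, rfl⟩
        by_contra c
        exact absurd ((if_neg c).symm.trans hi) (by decide)
      · intro hx
        obtain ⟨i, hi⟩ := e.surjective ⟨x, List.mem_toFinset.1 (Finset.mem_powerset.1 h1 hx)⟩
        obtain rfl : (e i).1 = x := congrArg _ hi
        exact ⟨i, if_pos hx, rfl⟩

end Pool.Agent.H.MP_593132_lc
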