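import Pool.Agent.H.MP_593132_lc.A

namespace Pool.Agent.H.MP_593132_lc
open Pool.Agent.Lib.CX

set_option synthInstance.maxSize 2000

variable {V : Type} [DecidableEq V]

abbrev N (V : Type) := ℕ × List (V × Bool) × ℕ

def vars (φ : List (Cl3 V)) : List V := φ.flatMap Cl3.vars
def allL (φ : List (Cl3 V)) : List (V × Bool) := vars φ ×ˢ [true, false]
def pos (φ : List (Cl3 V)) : List (List (V × Bool)) :=
  allL φ :: (φ.map (fun C => [C.1, C.2.1, C.2.2]) ++ (vars φ).map fun x => [(x, true), (x, false)])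
def LV (φ : List (Cl3 V)) : List (N V) := (allL φ).map fun l => (1, [l], 0)
def EV (φ : List (Cl3 V)) : List (N V) :=
  (pos φ ×ˢ List.range ((vars φ).length + 1)).map (fun z => (2, z.1, z.2)) ++
  (vars φ ×ˢ List.range ((vars φ).length + 1)).map fun z => (0, [(z.1, true), (z.1, false)], z.2)
def es (φ : List (Cl3 V)) : List (N V × N V) :=
  ((LV φ ++ EV φ) ×ˢ (LV φ ++ EV φ)).filter fun e =>
    decide (e.1 = e.2 ∨ (e.1.1 < e.2.1 ∧ ∃ l ∈ e.1.2.1, l ∈ e.2.2.1))
def po (φ : List (Cl3 V)) : Gr := mkGr (LV φ ++ EV φ) (es φ)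

theorem pt_po [Enc V] : PT (po (V := V)) := by unfold po es EV LV pos allL vars Cl3.vars; fun_prop

omit [DecidableEq V] in
theorem mem_allL {φ : List (Cl3 V)} {l} : l ∈ allL φ ↔ l.1 ∈ vars φ := by
  obtain ⟨x, _ | _⟩ := l <;> simp [allL]

omit [DecidableEq V] in
theorem mem_LV {φ : List (Cl3 V)} {u} : u ∈ LV φ ↔ ∃ l, l.1 ∈ vars φ ∧ (1, [l], 0) = u := by
  simp only [LV, List.mem_map, mem_allL]

omit [DecidableEq V] in
theorem mem_EV {φ : List (Cl3 V)} {u} : u ∈ EV φ ↔ u.2.2 < (vars φ).length + 1 ∧ ((u.1 = 2 ∧ u.2.1 ∈ pos φ) ∨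
    (u.1 = 0 ∧ ∃ x ∈ vars φ, [(x, true), (x, false)] = u.2.1)) := by
  obtain ⟨a, b, c⟩ := u
  simp only [EV, List.mem_append, List.mem_map, Prod.exists, List.mem_product, List.mem_range, Prod.mk.injEq]
  grind

omit [DecidableEq V] in
theorem pos_sub {φ : List (Cl3 V)} {A} (h : A ∈ pos φ) : A ≠ [] → ∀ l ∈ A, l.1 ∈ vars φ := by
  simp only [pos, List.mem_cons, List.mem_append, List.mem_map] at h
  rcases h with rfl | ⟨C, hC, rfl⟩ | ⟨x, hx, rfl⟩
  · exact fun _ _ => mem_allL.1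
  · exact fun _ l hl => List.mem_flatMap.2 ⟨C, hC, by simp only [Cl3.vars, List.mem_cons] at hl ⊢; grind⟩
  · simpa using hx

theorem mem_es {φ : List (Cl3 V)} {u v} : (u, v) ∈ es φ ↔ (u ∈ LV φ ++ EV φ ∧ v ∈ LV φ ++ EV φ) ∧
    (u = v ∨ (u.1 < v.1 ∧ ∃ l ∈ u.2.1, l ∈ v.2.1)) := by
  simp only [es, List.mem_filter, List.mem_product, decide_eq_true_eq]

theorem po_po (φ : List (Cl3 V)) : IsPartialOrder _ (po φ).arc where
  refl u := (mkGr_arc _ _ _ _).2 (mem_es.2 ⟨⟨(mkGrEquiv _ _ u).2, (mkGrEquiv _ _ u).2⟩, .inl rfl⟩)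
  trans u v w a b := by
    obtain ⟨⟨a1, a2⟩, a3⟩ := mem_es.1 ((mkGr_arc _ _ _ _).1 a)
    obtain ⟨⟨-, b2⟩, b3⟩ := mem_es.1 ((mkGr_arc _ _ _ _).1 b)
    refine (mkGr_arc _ _ _ _).2 (mem_es.2 ⟨⟨a1, b2⟩, ?_⟩)
    simp only [List.mem_append, mem_LV, mem_EV] at a2 b2
    grind
  antisymm u v a b := by
    obtain ⟨-, a3⟩ := mem_es.1 ((mkGr_arc _ _ _ _).1 a)
    obtain ⟨-, b3⟩ := mem_es.1 ((mkGr_arc _ _ _ _).1 b)
    exact (mkGrEquiv _ _).injective (Subtype.ext (by grind))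

theorem po_conn (φ : List (Cl3 V)) (h : φ ≠ []) :
    ∃ t, ∀ x, ∃ y, ((po φ).arc x y ∨ (po φ).arc y x) ∧ (po φ).arc y t := by
  let e := mkGrEquiv (LV φ ++ EV φ) (es φ)
  have ht : ((2, allL φ, 0) : N V) ∈ LV φ ++ EV φ :=
    List.mem_append_right _ (mem_EV.2 ⟨by simp, .inl ⟨rfl, List.mem_cons_self⟩⟩)
  refine ⟨e.symm ⟨_, ht⟩, fun x => ?_⟩
  have hx : (e x).1 ∈ LV φ ++ EV φ := (e x).2
  obtain ⟨l, h1, h2⟩ : ∃ l ∈ (e x).1.2.1, l.1 ∈ vars φ := by
    rcases List.mem_append.1 hx with a | a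
    · obtain ⟨l, a, b⟩ := mem_LV.1 a
      exact ⟨l, by simp [← b], a⟩
    obtain ⟨-, ⟨-, a⟩ | ⟨-, x, a, b⟩⟩ := mem_EV.1 a
    · have : (e x).1.2.1 ≠ [] := by
        obtain ⟨C, hC⟩ := List.exists_mem_of_ne_nil _ h
        have : (C.1.1, true) ∈ allL φ := mem_allL.2 (List.mem_flatMap.2 ⟨C, hC, by simp [Cl3.vars]⟩)
        simp only [pos, List.mem_cons, List.mem_append, List.mem_map] at a
        grind
      obtain ⟨l, hl⟩ := List.exists_mem_of_ne_nil _ this
      exact ⟨l, hl, pos_sub a this l hl⟩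
    · exact ⟨(x, true), by simp [← b], a⟩
  have hl : ((1, [l], 0) : N V) ∈ LV φ ++ EV φ := List.mem_append_left _ (mem_LV.2 ⟨l, h2, rfl⟩)
  refine ⟨e.symm ⟨_, hl⟩, ?_⟩
  simp only [po, mkGr_arc, mem_es, e, Equiv.apply_symm_apply] at *
  have := mem_allL.2 h2
  simp only [hl, ht, hx, true_and]
  simp only [List.mem_append, mem_LV, mem_EV] at hx
  grind

def Good (φ : List (Cl3 V)) (σ : Finset (N V)) : Prop :=
  (∀ A ∈ pos φ, ∃ l ∈ A, (1, [l], 0) ∈ σ) ∧ ∀ x ∈ vars φ, (1, [(x, true)], 0) ∉ σ ∨ (1, [(x, false)], 0) ∉ σ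

open Classical in
theorem cnt_good (φ : List (Cl3 V)) (h : φ ≠ []) : Cnt3 φ = ((LV φ).toFinset.powerset.filter (Good φ)).card := by
  rw [Cnt3, ← Set.ncard_coe_finset]
  refine Set.ncard_congr (fun s _ => (vars φ).toFinset.image fun x => (1, [(x, decide (x ∈ s))], 0)) ?_ ?_ ?_
  · rintro s ⟨-, h2⟩
    simp only [Finset.coe_filter, Finset.mem_powerset, Set.mem_ofPred_eq, Finset.image_subset_iff, List.mem_toFinset]
    refine ⟨fun x hx => mem_LV.2 ⟨_, hx, rfl⟩, fun A hA => ?_, fun x hx => by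
      by_cases c : x ∈ s <;> simp [c]⟩
    have := pos_sub hA
    simp only [pos, List.mem_cons, List.mem_append, List.mem_map] at hA
    rcases hA with rfl | ⟨C, hC, rfl⟩ | ⟨x, hx, rfl⟩
    · obtain ⟨C, hC⟩ := List.exists_mem_of_ne_nil _ h
      have : C.1.1 ∈ vars φ := List.mem_flatMap.2 ⟨C, hC, by simp [Cl3.vars]⟩
      exact ⟨(C.1.1, decide (C.1.1 ∈ s)), mem_allL.2 this, Finset.mem_image_of_mem _ (List.mem_toFinset.2 this)⟩
    · obtain ⟨l, a, b⟩ : ∃ l ∈ [C.1, C.2.1, C.2.2], decide (l.1 ∈ s) = l.2 := by simpa [Cl3.ok] using h2 C hC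
      exact ⟨l, a, Finset.mem_image.2 ⟨l.1, List.mem_toFinset.2 (this (by simp) l a), by rw [b]⟩⟩
    · exact ⟨(x, decide (x ∈ s)), by by_cases c : x ∈ s <;> simp [c], Finset.mem_image_of_mem _ (List.mem_toFinset.2 hx)⟩
  · rintro s t ⟨a, -⟩ ⟨b, -⟩ e
    ext x
    have := Finset.ext_iff.1 e (1, [(x, true)], 0)
    have a : x ∈ s → x ∈ (vars φ).toFinset := @a x
    have b : x ∈ t → x ∈ (vars φ).toFinset := @b x
    generalize (vars φ).toFinset = X at *
    simp at this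
    grind
  · intro σ hσ
    simp only [Finset.coe_filter, Finset.mem_powerset, Set.mem_ofPred_eq] at hσ
    obtain ⟨a, b, c⟩ := hσ
    have k : ∀ x ∈ vars φ, ∀ s, (1, [(x, s)], 0) ∈ σ ↔ decide ((1, [(x, true)], 0) ∈ σ) = s := fun x hx s => by
      have := b [(x, true), (x, false)] (by simp [pos, hx])
      have := c x hx
      cases s <;> grind
    refine ⟨(vars φ).toFinset.filter fun x => (1, [(x, true)], 0) ∈ σ, ⟨Finset.filter_subset _ _, fun C hC => ?_⟩,
      Finset.ext fun u => ?_⟩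
    · have hA : [C.1, C.2.1, C.2.2] ∈ pos φ := List.mem_cons_of_mem _ (List.mem_append_left _ (List.mem_map_of_mem hC))
      obtain ⟨l, d, e⟩ := b _ hA
      have f := pos_sub hA (by simp) l d
      have := (k _ f l.2).1 e
      simp only [Cl3.ok, Finset.mem_filter, List.mem_toFinset]
      simp only [List.mem_cons, List.not_mem_nil, or_false] at d
      rcases d with rfl | rfl | rfl <;> simp [f, this]
    · simp only [Finset.mem_image, Finset.mem_filter, List.mem_toFinset]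
      constructor
      · rintro ⟨x, hx, rfl⟩
        exact (k x hx _).2 (by simp [hx])
      · intro hu
        obtain ⟨l, d, rfl⟩ := mem_LV.1 (List.mem_toFinset.1 (a hu))
        exact ⟨l.1, d, by simp [d, (k _ d l.2).1 hu]⟩

theorem cnt_eq (φ : List (Cl3 V)) (h : φ ≠ []) :
    Cnt3 φ = Nat.card ((po φ).arc →r L2) % 2 ^ ((vars φ).length + 1) := by
  classical
  have h1 : Cnt3 φ < 2 ^ ((vars φ).length + 1) := by
    refine lt_of_le_of_lt (Set.ncard_le_ncard (t := ((vars φ).toFinset.powerset : Finset _))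
      (fun s hs => Finset.mem_coe.2 (Finset.mem_powerset.2 hs.1))) ?_
    rw [Set.ncard_coe_finset, Finset.card_powerset]
    exact Nat.pow_lt_pow_right (by omega) (Nat.lt_succ_of_le (List.toFinset_card_le _))
  rw [← Nat.mod_eq_of_lt h1, cnt_good φ h, Finset.card_filter, po, (ups_mk _ _).trans ((congrArg Finset.card ?_).trans
    (fib (LV φ).toFinset (EV φ).toFinset ?_ (fun e σ => e.1 = 2 ∧ ∃ l ∈ e.2.1, (1, [l], 0) ∈ σ)
      (fun e σ => e.1 = 0 ∧ ∃ l ∈ e.2.1, (1, [l], 0) ∉ σ) fun _ _ _ => by omega)),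
    Finset.sum_nat_mod, eq_comm, Finset.sum_nat_mod]
  · congr 1
    refine Finset.sum_congr rfl fun σ _ => ?_
    split_ifs with c
    · rw [Finset.filter_false_of_mem, Finset.card_empty, pow_zero]
      intro e he
      obtain ⟨-, ⟨a, b⟩ | ⟨a, x, b, d⟩⟩ := mem_EV.1 (List.mem_toFinset.1 he)
      · exact fun k => k.1 ⟨a, c.1 _ b⟩
      · exact fun k => k.2 ⟨a, by simpa [← d] using c.2 x b⟩
    · rw [Nat.zero_mod]
      refine Nat.mod_eq_zero_of_dvd (pow_dvd_pow _ ?_)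
      rw [← Finset.card_range (_ + 1)]
      rcases not_and_or.1 c with c | c <;> push Not at c
      · obtain ⟨A, a, b⟩ := c
        exact Finset.card_le_card_of_injOn (fun i => (2, A, i))
          (fun i hi => by simpa [mem_EV, a] using ⟨by simpa using hi, fun x => ⟨b _, b _⟩⟩) fun i _ j _ => by simp
      · obtain ⟨x, a, b⟩ := c
        exact Finset.card_le_card_of_injOn (fun i => (0, [(x, true), (x, false)], i))
          (fun i hi => by simpa [mem_EV, a, b] using ⟨by simpa using hi, by grind⟩) fun i _ j _ => by simp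
  · ext S
    simp only [List.toFinset_append, Finset.mem_filter, List.mem_toFinset, Finset.mem_inter, mem_es]
    refine and_congr_right fun _ => ?_
    have sub : ∀ e ∈ EV φ, ∀ l ∈ e.2.1, (1, [l], 0) ∈ LV φ := fun e he l hl => mem_LV.2 ⟨l, by
      obtain ⟨-, ⟨a, b⟩ | ⟨a, x, b, d⟩⟩ := mem_EV.1 he
      exacts [pos_sub b (List.ne_nil_of_mem hl) l hl, by grind], rfl⟩
    constructor
    · refine fun k e he => ⟨fun ⟨a, l, b, c, d⟩ => ?_, fun ⟨a, l, b, c⟩ d => c ⟨?_, sub e he l b⟩⟩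
      · have d := List.mem_append_left (EV φ) d
        have he := List.mem_append_right (LV φ) he
        exact k _ d _ he ⟨⟨d, he⟩, .inr ⟨by simp [a], l, by simp, b⟩⟩ c
      · have f := List.mem_append_left (EV φ) (sub e he l b)
        have he := List.mem_append_right (LV φ) he
        exact k _ he _ f ⟨⟨he, f⟩, .inr ⟨by simp [a], l, b, by simp⟩⟩ d
    · rintro k x hx y hy ⟨-, rfl | ⟨a, l, b, c⟩⟩ d
      · exact d
      have f : (1, [l], 0) ∈ S ∧ (1, [l], 0) ∈ LV φ := by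
        rcases List.mem_append.1 hx with g | g
        · obtain ⟨l', g', rfl⟩ := mem_LV.1 g
          obtain rfl : l = l' := by simpa using b
          exact ⟨d, g⟩
        · by_contra f
          refine (k x g).2 ⟨?_, l, b, f⟩ d
          have := (mem_EV.1 g).2
          simp only [List.mem_append, mem_LV, mem_EV] at hy
          grind
      rcases List.mem_append.1 hy with g | g
      · obtain ⟨l', g', rfl⟩ := mem_LV.1 g
        obtain rfl : l = l' := by simpa using c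
        exact f.1
      · exact (k y g).1 ⟨by have := (mem_EV.1 g).2; omega, l, c, f⟩
  · rw [Finset.disjoint_left]
    simp only [List.mem_toFinset, mem_LV, mem_EV]
    grind

end Pool.Agent.H.MP_593132_lc
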